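import Pool.Agent.U541.AG.Order

set_option autoImplicit false

/-!
# Gluing arbitrary pieces to the crossings of a checkerboard coloured diagram

## The manifolds

Let `D` be a connected link diagram on the sphere `S² ⊂ S³` with a checkerboard colouring
(`Pool.Agent.U541.AG.Diagram`).  Remove small open balls around the crossings from `S³`, and let
`E D` be the double cover of the rest, branched along the strands of `D` (which only depend on the
underlying 4-valent plane graph).  It is a compact 3-manifold with one boundary torus for each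
crossing.  If the 4-valent graph is the graph of a polyhedron then the interior of `E D` is
hyperbolic and consists of four copies of the right-angled ideal polyhedron with this graph.

The fundamental group of `E D` has one generator for each region; one white region `w₀` and one
black region `b₀` are trivial.  At a crossing with the corners `w₁, b₁, w₂, b₂` in
counterclockwise order the boundary torus has the basis `w₁⁻¹ w₂`, `b₂⁻¹ b₁` (the two orthogonal
directions of the square cusp).  The double branched cover of the alternating link with diagram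
`D` is obtained by gluing solid tori with `w₁⁻¹ w₂ = b₂⁻¹ b₁` (all crossings of one kind); positive
rational tangles at the crossings give the slopes `(w₁⁻¹ w₂) ^ m = (b₂⁻¹ b₁) ^ n`, `m, n ≥ 0`.

Let an arbitrary piece `Y c`, with a boundary torus with basis `p c`, `q c`, be glued to the
boundary torus of each crossing `c`, such that `w₁⁻¹ w₂ = p c` and `b₂⁻¹ b₁ = q c`.  The
fundamental group of the union is `GluedGroup D w₀ b₀ Y p q`.

## The theorem

The pieces have to be in the positive quadrant in the sense of actions on linear orders, see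
`Pool.Agent.U541.AG.Leads`: `p` has no fixed point other than the common fixed points of the
whole piece, and `q` moves no point in the direction opposite to `p`; or the same with `p`, `q`
exchanged.  If `Y` is left-orderable, this can be expressed by the left orders of `Y`.

Choose sets `P`, `Q` of crossings which together contain all of them, such that `p c` leads for
`c ∈ P` and `q c` leads for `c ∈ Q`; the white regions are to be connected through crossings in
`Q` and the black ones through crossings in `P`, for instance `Q` the edges of a spanning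
tree of the white graph and `P` the other edges (or `P`, `Q` all crossings).  Then the fundamental
group of the union has no nontrivial homomorphism to a left-orderable group.

If one crossing is left without a piece then the union is a piece itself, in the opposite
quadrant, which can be glued to a crossing of another diagram: so we obtain trees of
manifolds `E D`.

## The idea

At every point of a linear order on which the fundamental group acts, the images of the point
under the regions give two functions, one on the white and one on the black regions.  The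
differences of a function on the white regions and of a function on the black regions are
orthogonal (`Pool.Agent.U541.AG.orthogonal`); replacing the values by their ranks, we see that at
every crossing one of the two differences vanishes.
-/

namespace Pool.Agent.Results.MP_9ae2f3_gt.AlternatingGluing

open Pool.Agent.U541.AG Pool.Agent.U541.SP

/-- The free product of the free group on the regions and of the groups of the pieces. -/
def FreeUnion (D : Diagram) (Y : D.Crossing → Type) [∀ c, Group (Y c)] : Type :=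
  Monoid.Coprod (FreeGroup (D.White ⊕ D.Black)) (Monoid.CoprodI Y)

instance (D : Diagram) (Y : D.Crossing → Type) [∀ c, Group (Y c)] : Group (FreeUnion D Y) :=
  inferInstanceAs (Group (Monoid.Coprod (FreeGroup (D.White ⊕ D.Black)) (Monoid.CoprodI Y)))

/-- The generator of a region. -/
def region (D : Diagram) (Y : D.Crossing → Type) [∀ c, Group (Y c)] (x : D.White ⊕ D.Black) :
    FreeUnion D Y :=
  Monoid.Coprod.inl (FreeGroup.of x)

/-- The inclusion of the group of a piece in the free product. -/
def inPiece (D : Diagram) (Y : D.Crossing → Type) [∀ c, Group (Y c)] (c : D.Crossing) :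
    Y c →* FreeUnion D Y :=
  Monoid.Coprod.inr.comp Monoid.CoprodI.of

/-- The regions `w₀` and `b₀` are trivial, and the peripheral elements of the crossing `c` are
identified with `p c` and `q c`. -/
def gluing (D : Diagram) (w₀ : D.White) (b₀ : D.Black) (Y : D.Crossing → Type)
    [∀ c, Group (Y c)] (p q : ∀ c, Y c) : Set (FreeUnion D Y) :=
  {z | z = region D Y (Sum.inl w₀) ∨ z = region D Y (Sum.inr b₀) ∨ ∃ c,
    z = (region D Y (Sum.inl (D.white c false)))⁻¹ * region D Y (Sum.inl (D.white c true)) *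
      (inPiece D Y c (p c))⁻¹ ∨
    z = (region D Y (Sum.inr (D.black c true)))⁻¹ * region D Y (Sum.inr (D.black c false)) *
      (inPiece D Y c (q c))⁻¹}

/-- The fundamental group of the union of `E D` and of the pieces `Y c`. -/
def GluedGroup (D : Diagram) (w₀ : D.White) (b₀ : D.Black) (Y : D.Crossing → Type)
    [∀ c, Group (Y c)] (p q : ∀ c, Y c) : Type :=
  FreeUnion D Y ⧸ Subgroup.normalClosure (gluing D w₀ b₀ Y p q)

instance (D : Diagram) (w₀ : D.White) (b₀ : D.Black) (Y : D.Crossing → Type)
    [∀ c, Group (Y c)] (p q : ∀ c, Y c) : Group (GluedGroup D w₀ b₀ Y p q) :=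
  inferInstanceAs (Group (FreeUnion D Y ⧸ Subgroup.normalClosure (gluing D w₀ b₀ Y p q)))

/-- The projection of the free product to the group of the union. -/
def proj (D : Diagram) (w₀ : D.White) (b₀ : D.Black) (Y : D.Crossing → Type)
    [∀ c, Group (Y c)] (p q : ∀ c, Y c) : FreeUnion D Y →* GluedGroup D w₀ b₀ Y p q :=
  QuotientGroup.mk' (Subgroup.normalClosure (gluing D w₀ b₀ Y p q))

/-- The homomorphism of the group of a piece to the group of the union. -/
def ofPiece (D : Diagram) (w₀ : D.White) (b₀ : D.Black) (Y : D.Crossing → Type)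
    [∀ c, Group (Y c)] (p q : ∀ c, Y c) (c : D.Crossing) : Y c →* GluedGroup D w₀ b₀ Y p q :=
  (proj D w₀ b₀ Y p q).comp (inPiece D Y c)

section
variable {D : Diagram} {w₀ : D.White} {b₀ : D.Black} {Y : D.Crossing → Type}
  [∀ c, Group (Y c)] {p q : ∀ c, Y c}

/-- the image of a region -/
def reg (w₀ : D.White) (b₀ : D.Black) (Y : D.Crossing → Type) [∀ c, Group (Y c)]
    (p q : ∀ c, Y c) (x : D.White ⊕ D.Black) : GluedGroup D w₀ b₀ Y p q :=
  proj D w₀ b₀ Y p q (region D Y x)

theorem rel {z : FreeUnion D Y} (h : z ∈ gluing D w₀ b₀ Y p q) : proj D w₀ b₀ Y p q z = 1 :=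
  (QuotientGroup.eq_one_iff _).mpr (Subgroup.subset_normalClosure h)

theorem rel_white : reg w₀ b₀ Y p q (Sum.inl w₀) = 1 := rel (Or.inl rfl)

theorem rel_black : reg w₀ b₀ Y p q (Sum.inr b₀) = 1 := rel (Or.inr (Or.inl rfl))

theorem rel_p (c : D.Crossing) : (reg w₀ b₀ Y p q (Sum.inl (D.white c false)))⁻¹ *
    reg w₀ b₀ Y p q (Sum.inl (D.white c true)) = ofPiece D w₀ b₀ Y p q c (p c) := by
  have h := rel (w₀ := w₀) (b₀ := b₀) (p := p) (q := q) (Or.inr (Or.inr ⟨c, Or.inl rfl⟩))
  rw [map_mul, map_mul, map_inv, map_inv, mul_inv_eq_one] at h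
  exact h

theorem rel_q (c : D.Crossing) : (reg w₀ b₀ Y p q (Sum.inr (D.black c true)))⁻¹ *
    reg w₀ b₀ Y p q (Sum.inr (D.black c false)) = ofPiece D w₀ b₀ Y p q c (q c) := by
  have h := rel (w₀ := w₀) (b₀ := b₀) (p := p) (q := q) (Or.inr (Or.inr ⟨c, Or.inr rfl⟩))
  rw [map_mul, map_mul, map_inv, map_inv, mul_inv_eq_one] at h
  exact h

theorem gen_fix {Ω : Type} [LinearOrder Ω] (ρ : GluedGroup D w₀ b₀ Y p q →* (Ω ≃o Ω)) {v : Ω}
    (h1 : ∀ x, ρ (reg w₀ b₀ Y p q x) v = v) (h2 : ∀ c y, ρ (ofPiece D w₀ b₀ Y p q c y) v = v)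
    (g : GluedGroup D w₀ b₀ Y p q) : ρ g v = v := by
  have h3 : (⊤ : Subgroup (FreeGroup (D.White ⊕ D.Black))) ≤
      (stab ρ v).comap ((proj D w₀ b₀ Y p q).comp (show FreeGroup (D.White ⊕ D.Black) →*
        FreeUnion D Y from Monoid.Coprod.inl)) := by
    rw [← FreeGroup.closure_range_of, Subgroup.closure_le]
    rintro _ ⟨x, rfl⟩
    exact h1 x
  have h4 : ∀ x : Monoid.CoprodI Y, proj D w₀ b₀ Y p q (show FreeUnion D Y from
      Monoid.Coprod.inr x) ∈ stab ρ v := by
    intro x
    induction x using Monoid.CoprodI.induction_on with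
    | one =>
      have e : (show FreeUnion D Y from Monoid.Coprod.inr (1 : Monoid.CoprodI Y)) = 1 :=
        map_one (Monoid.Coprod.inr : Monoid.CoprodI Y →* _)
      rw [e, map_one]; exact one_mem _
    | of c y => exact h2 c y
    | mul x y hx hy =>
      have e : (show FreeUnion D Y from Monoid.Coprod.inr (x * y)) =
          (show FreeUnion D Y from Monoid.Coprod.inr x) *
            (show FreeUnion D Y from Monoid.Coprod.inr y) :=
        map_mul (Monoid.Coprod.inr : Monoid.CoprodI Y →* _) x y
      rw [e, map_mul]; exact mul_mem hx hy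
  have key : ∀ z : FreeUnion D Y, proj D w₀ b₀ Y p q z ∈ stab ρ v := by
    intro z
    refine Monoid.Coprod.induction_on (motive := fun z => proj D w₀ b₀ Y p q
      (show FreeUnion D Y from z) ∈ stab ρ v) z (fun x => h3 (Subgroup.mem_top x)) h4 ?_
    intro x y hx hy
    have e : proj D w₀ b₀ Y p q (show FreeUnion D Y from x * y) =
        proj D w₀ b₀ Y p q (show FreeUnion D Y from x) *
          proj D w₀ b₀ Y p q (show FreeUnion D Y from y) := map_mul (proj D w₀ b₀ Y p q) _ _
    rw [e]; exact mul_mem hx hy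
  obtain ⟨z, rfl⟩ := QuotientGroup.mk'_surjective
    (Subgroup.normalClosure (gluing D w₀ b₀ Y p q)) g
  exact key z

end

/-- `G` has no nontrivial homomorphism to a left-orderable group; in particular it is not
left-orderable. -/
theorem not_lo {G : Type} [Group G]
    (h : ∀ (H : Type) [Group H], LeftOrderable H → ∀ f : G →* H, ∀ g, f g = 1) :
    ¬ LeftOrderable G := by
  intro hG
  obtain ⟨a, b, hab⟩ := hG.1
  have key := h G hG (MonoidHom.id _)
  exact hab ((key a).trans (key b).symm)

/-- **Gluing pieces to the crossings of a checkerboard coloured diagram.** -/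
theorem result :
    (∀ (D : Diagram) (w₀ : D.White) (b₀ : D.Black) (Y : D.Crossing → Type)
      [∀ c, Group (Y c)] (p q : ∀ c, Y c) (P Q : Set D.Crossing),
      (∀ c ∈ P, Leads (Y c) (p c) (q c)) → (∀ c ∈ Q, Leads (Y c) (q c) (p c)) →
      ((∀ c, c ∈ P ∨ c ∈ Q) → Joined D.white Q w₀ → Joined D.black P b₀ →
        ¬ LeftOrderable (GluedGroup D w₀ b₀ Y p q) ∧
        ∀ (H : Type) [Group H], LeftOrderable H →
          ∀ f : GluedGroup D w₀ b₀ Y p q →* H, ∀ g, f g = 1) ∧
      ∀ c₀, (∀ c, c ≠ c₀ → c ∈ P ∨ c ∈ Q) → c₀ ∉ P → c₀ ∉ Q →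
        Subgroup.closure {p c₀, q c₀} = ⊤ →
        (Joined D.white (insert c₀ Q) w₀ → Joined D.black P b₀ →
          Leads (GluedGroup D w₀ b₀ Y p q) (ofPiece D w₀ b₀ Y p q c₀ (p c₀))
            (ofPiece D w₀ b₀ Y p q c₀ (q c₀))⁻¹) ∧
        (Joined D.white Q w₀ → Joined D.black (insert c₀ P) b₀ →
          Leads (GluedGroup D w₀ b₀ Y p q) (ofPiece D w₀ b₀ Y p q c₀ (q c₀))
            (ofPiece D w₀ b₀ Y p q c₀ (p c₀))⁻¹)) ∧
    (∀ (Y : Type) [Group Y] (p q : Y), Leads Y p q →
      ∀ k l m n : ℕ, 1 ≤ k → Leads Y (p ^ k * q ^ l) (p ^ m * q ^ n)) ∧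
    (∀ (Y : Type) [Group Y] (t : Y), Subgroup.closure {t} = ⊤ →
      ∀ m n : ℕ, 1 ≤ m → Leads Y (t ^ m) (t ^ n)) ∧
    (∀ (Y : Type) [Group Y] (a b : Y), Subgroup.closure {a, b} = ⊤ → a * b = b⁻¹ * a →
      ∀ (k m : ℕ) (i j : ℤ), 1 ≤ k → 1 ≤ m →
        Leads Y (a ^ (2 * k) * b ^ i) (a ^ (2 * m) * b ^ j)) ∧
    (∀ (Y : Type) [Group Y] (p q : Y), LeftOrderable Y →
      (Leads Y p q ↔ ∀ lt : Y → Y → Prop, IsLeftOrder Y lt →
        (∀ g, ∃ k : ℤ, g = p ^ k ∨ lt g (p ^ k)) ∧ (lt 1 p → ¬ lt q 1))) := by
  refine ⟨?_, fun Y _ p q h k l m n hk =>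
      leads_iff_hom.mpr ((leads_iff_hom.mp h).cone k l m n hk),
    fun Y _ t ht m n hm => leads_iff_hom.mpr (leads_cyclic Y t ht m n hm),
    fun Y _ a b hgen h k m i j hk hm => leads_iff_hom.mpr (leads_klein Y a b hgen h k m i j hk hm),
    fun Y _ p q hY => leads_iff_hom.trans (leads_iff Y p q hY)⟩
  simp only [leads_iff_hom]
  intro D w₀ b₀ Y _ p q P Q hP hQ
  have hp : ∀ c, (reg w₀ b₀ Y p q (Sum.inl (D.white c false)))⁻¹ *
      reg w₀ b₀ Y p q (Sum.inl (D.white c true)) = ofPiece D w₀ b₀ Y p q c (p c) := rel_p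
  have hq : ∀ c, (reg w₀ b₀ Y p q (Sum.inr (D.black c true)))⁻¹ *
      reg w₀ b₀ Y p q (Sum.inr (D.black c false)) = ofPiece D w₀ b₀ Y p q c (q c) := rel_q
  constructor
  · intro hPQ hw hb
    have h : ∀ (H : Type) [Group H], LeftOrderable H →
        ∀ f : GluedGroup D w₀ b₀ Y p q →* H, ∀ g, f g = 1 := by
      intro H _ hH f g
      obtain ⟨_, hinv⟩ := lo_order hH
      set ρ := (trans hinv).comp f with hρ
      obtain ⟨-, h1, h2⟩ := half_fix D ρ (w := fun x => reg w₀ b₀ Y p q (Sum.inl x))
        (b := fun x => reg w₀ b₀ Y p q (Sum.inr x)) hp hq hP hQ (v := (1 : H))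
        (fun c h1 h2 => (not_or.mpr ⟨h1, h2⟩ (hPQ c)).elim)
      obtain ⟨⟨h3, h4⟩, h5⟩ := all_fix D ρ (w := fun x => reg w₀ b₀ Y p q (Sum.inl x))
        (b := fun x => reg w₀ b₀ Y p q (Sum.inr x)) hp hq rel_white rel_black hw hb hP hQ
        (fun c h1 h2 => (not_or.mpr ⟨h1, h2⟩ (hPQ c)).elim) h1 h2
      have h6 := gen_fix ρ (v := (1 : H)) (by rintro (x | x); exacts [h3 x, h4 x]) h5 g
      rw [hρ, MonoidHom.comp_apply, trans_apply, mul_one] at h6
      exact h6
    exact ⟨not_lo h, h⟩
  · intro c₀ hPQ hP₀ hQ₀ hgen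
    have hO : ∀ c, c ∉ P → c ∉ Q → c = c₀ := by
      intro c h1 h2
      by_contra h3
      exact (not_or.mpr ⟨h1, h2⟩ (hPQ c h3)).elim
    have hO' : ∀ c, c ∉ P → c ∉ Q → Subgroup.closure {p c, q c} = ⊤ := by
      intro c h1 h2
      obtain rfl := hO c h1 h2
      exact hgen
    -- the points where the elements of `c₀` do not move in opposite directions
    have key : ∀ {Ω : Type} [LinearOrder Ω] (ρ : GluedGroup D w₀ b₀ Y p q →* (Ω ≃o Ω)) (v : Ω),
        ((v < ρ (ofPiece D w₀ b₀ Y p q c₀ (p c₀)) v → v ≤ ρ (ofPiece D w₀ b₀ Y p q c₀ (q c₀)) v) ∧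
          (ρ (ofPiece D w₀ b₀ Y p q c₀ (p c₀)) v < v →
            ρ (ofPiece D w₀ b₀ Y p q c₀ (q c₀)) v ≤ v)) →
        (ρ (ofPiece D w₀ b₀ Y p q c₀ (p c₀)) v = v ∨
          ρ (ofPiece D w₀ b₀ Y p q c₀ (q c₀)) v = v) ∧
        (Joined D.white (insert c₀ Q) w₀ → Joined D.black P b₀ →
          ρ (ofPiece D w₀ b₀ Y p q c₀ (p c₀)) v = v → ∀ g, ρ g v = v) ∧
        (Joined D.white Q w₀ → Joined D.black (insert c₀ P) b₀ →
          ρ (ofPiece D w₀ b₀ Y p q c₀ (q c₀)) v = v → ∀ g, ρ g v = v) := by
      intro Ω _ ρ v hv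
      obtain ⟨h0, h1, h2⟩ := half_fix D ρ (w := fun x => reg w₀ b₀ Y p q (Sum.inl x))
        (b := fun x => reg w₀ b₀ Y p q (Sum.inr x)) hp hq hP hQ (v := v)
        (fun c h1 h2 => by obtain rfl := hO c h1 h2; exact hv)
      refine ⟨h0 c₀, fun hw hb h3 => ?_, fun hw hb h3 => ?_⟩
      · obtain ⟨⟨h4, h5⟩, h6⟩ := all_fix D ρ (w := fun x => reg w₀ b₀ Y p q (Sum.inl x))
          (b := fun x => reg w₀ b₀ Y p q (Sum.inr x)) hp hq rel_white rel_black hw hb hP hQ
          hO' (v := v) (by rintro c (rfl | hc); exacts [h3, h1 c hc]) h2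
        exact gen_fix ρ (v := v) (by rintro (x | x); exacts [h4 x, h5 x]) h6
      · obtain ⟨⟨h4, h5⟩, h6⟩ := all_fix D ρ (w := fun x => reg w₀ b₀ Y p q (Sum.inl x))
          (b := fun x => reg w₀ b₀ Y p q (Sum.inr x)) hp hq rel_white rel_black hw hb hP hQ
          hO' (v := v) h1 (by rintro c (rfl | hc); exacts [h3, h2 c hc])
        exact gen_fix ρ (v := v) (by rintro (x | x); exacts [h4 x, h5 x]) h6
    have inv_up : ∀ {Ω : Type} [LinearOrder Ω] (ρ : GluedGroup D w₀ b₀ Y p q →* (Ω ≃o Ω)) (v : Ω)
        (g : GluedGroup D w₀ b₀ Y p q), (ρ g v ≤ v → v ≤ ρ g⁻¹ v) ∧ (v ≤ ρ g v → ρ g⁻¹ v ≤ v) := by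
      intro Ω _ ρ v g
      have h1 : ρ g (ρ g⁻¹ v) = v := by
        rw [map_inv]; exact (ρ g).apply_symm_apply v
      constructor
      · intro h2
        rw [← (ρ g).le_iff_le, h1]; exact h2
      · intro h2
        rw [← (ρ g).le_iff_le, h1]; exact h2
    constructor
    · intro hw hb Ω _ ρ v
      refine ⟨fun h1 => ?_, fun h1 => ?_, fun h1 => ?_⟩
      · refine (key ρ v ⟨fun h2 => ?_, fun h2 => ?_⟩).2.1 hw hb h1
        · exact absurd h1 h2.ne'
        · exact absurd h1 h2.ne
      · refine (inv_up ρ v _).1 ?_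
        by_contra h2
        rw [not_le] at h2
        rcases (key ρ v ⟨fun _ => h2.le, fun h3 => absurd h3 (not_lt.mpr h1.le)⟩).1 with h3 | h3
        · exact absurd h3 h1.ne'
        · exact absurd h3 h2.ne'
      · refine (inv_up ρ v _).2 ?_
        by_contra h2
        rw [not_le] at h2
        rcases (key ρ v ⟨fun h3 => absurd h3 (not_lt.mpr h1.le), fun _ => h2.le⟩).1 with h3 | h3
        · exact absurd h3 h1.ne
        · exact absurd h3 h2.ne
    · intro hw hb Ω _ ρ v
      refine ⟨fun h1 => ?_, fun h1 => ?_, fun h1 => ?_⟩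
      · refine (key ρ v ⟨fun h2 => ?_, fun h2 => ?_⟩).2.2 hw hb h1
        · exact h1.ge
        · exact h1.le
      · refine (inv_up ρ v _).1 ?_
        by_contra h2
        rw [not_le] at h2
        rcases (key ρ v ⟨fun _ => h1.le, fun h3 => absurd h3 (not_lt.mpr h2.le)⟩).1 with h3 | h3
        · exact absurd h3 h2.ne'
        · exact absurd h3 h1.ne'
      · refine (inv_up ρ v _).2 ?_
        by_contra h2
        rw [not_le] at h2
        rcases (key ρ v ⟨fun h3 => absurd h3 (not_lt.mpr h2.le), fun _ => h1.le⟩).1 with h3 | h3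
        · exact absurd h3 h2.ne
        · exact absurd h3 h1.ne

end Pool.Agent.Results.MP_9ae2f3_gt.AlternatingGluing
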