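import Pool.Agent.U541.PB.Group

set_option autoImplicit false

/-!
# Surgeries on the lifts of the band circles to cyclic branched covers

## The manifolds

Let `K ⊂ S³` be the pretzel knot with columns of `1, -1, 1` crossings (an unknot) and let
`C 0, C 1, C 2` be unknotted circles around its three columns.  A circle `C j` bounds a disc which
meets the two strands of column `j`; these strands are antiparallel, so `C j` has linking number
`0` with `K`.  Let `Σ n` be the `n`-fold cyclic cover of `S³` branched along `K` (again `S³`).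
Each `C j` has `n` lifts to `Σ n`, one in each sheet; together they form a link of `3n` components
in `Σ n = S³`.  For rational numbers `r j i` (`j < 3`, `i` modulo `n`) let `M n r` be the closed
3-manifold obtained by Dehn surgery on this link: on the `i`-th lift of `C j` the slope is
`den * μ - num * λ`, where `r j i = num / den`, and `μ`, `λ` are the lifts of the meridian of
`C j` and of its preferred longitude (the product of the two downward meridians of the strands).

If `r j i = k j` are integers independent of the sheet `i` then the surgery puts `k j` full twists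
into the column `j`, and `M n r` is the `n`-fold cyclic branched cover of the pretzel knot with
columns of `1 + 2 k 0, -1 + 2 k 1, 1 + 2 k 2` crossings.  In general, `t j i = ± 1 + 2 r j i` is
the (rational) number of crossings of column `j` in sheet `i`; it may be different in different
sheets.

## The theorem

If `1 ≤ t 0 i ≤ 3`, `t 1 i ≤ -3` and `1 ≤ t 2 i` for all `i`, then every homomorphism from the
fundamental group of `M n r` to a left-orderable group is trivial, for all `n`.

For integers `r j` independent of `i` these are the cyclic branched covers of the pretzel knots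
`P(3, -(2q+1), 2b+1)` (starting result `PretzelTwoParameters`) and of the two-bridge knots
`P(1, -(2q+1), 2b+1)`.

## The idea

The group is generated by `x i`, `v i`, `w i`, with `x i * v i * w i = 1`, and by the elements
`g i = x i ^ p`, `r i = v i ^ (q - 1)`, `f i = w i ^ b` in the sense of rational exponents,
`0 ≤ p ≤ 1`, `q ≥ 1`, `b ≥ 0`.  Put `A i = x i * g i * v i ^ 2 * r i` and
`C i = w i * f i * (g i)⁻¹`; then `A (i+1) = A i * w i` and `C (i+1) = f i * (g i)⁻¹ * (x i)⁻¹`.
Let the group act by order automorphisms on a complete linear order.  If `A i y ≥ y`, `C i y ≥ y`,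
not both with equality, then `x i y < y` and there is a point `p ≤ y` with `A (i+1) p ≥ p` and
`C (i+1) p > C i y`: the point `y` itself, or `p = x i ρ` with `g i (v i (r i ρ)) = ρ`,
`y < ρ ≤ (x i)⁻¹ y`, by the intermediate value theorem.  This contradicts periodicity, and so on;
see `Pool.Agent.U541.PB.Chain`, which follows the plan of `Pool.Agent.N463.PZ.Chain` (helper463).
The new points are the fractional powers `g i` of `x i` and the dependence of all exponents on
`i`.
-/

namespace Pool.Agent.Results.MP_9ae2f3_gt.PretzelBandSurgeries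

open Pool.Agent.U541.PB

/-- A nontrivial group is left-orderable if it carries a strict total order that is invariant
under left multiplication. -/
def LeftOrderable (G : Type*) [Group G] : Prop :=
  Nontrivial G ∧ ∃ lt : G → G → Prop, IsStrictTotalOrder G lt ∧
    ∀ a b c : G, lt a b ↔ lt (c * a) (c * b)

/-- One crossing of a vertical twist region: if the two strands, both oriented downwards, have
meridians `(x, y)` (left, right) above the crossing, then they have meridians `(y, y⁻¹ x y)`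
below it.  The inverse is the crossing of the other handedness. -/
def crossing (G : Type*) [Group G] : Equiv.Perm (G × G) where
  toFun w := (w.2, w.2⁻¹ * w.1 * w.2)
  invFun w := (w.1 * w.2 * w.1⁻¹, w.1)
  left_inv w := by ext <;> simp [mul_assoc]
  right_inv w := by ext <;> simp [mul_assoc]

/-- The meridian `a j` of the arc at the top of the diagram of `K` that joins the top right end of
column `j - 1` to the top left end of column `j`, oriented into column `j`. -/
def arc (j : Fin 3) : FreeGroup (Fin 3 ⊕ Fin 3) := FreeGroup.of (Sum.inl j)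

/-- The meridian `c j` of the front arc of the circle `C j`. -/
def circle (j : Fin 3) : FreeGroup (Fin 3 ⊕ Fin 3) := FreeGroup.of (Sum.inr j)

/-- The downward meridians of the two strands of column `j` below the circle `C j`: the circle
passes behind the two strands, and then, below, in front of them. -/
def below (j : Fin 3) : FreeGroup (Fin 3 ⊕ Fin 3) × FreeGroup (Fin 3 ⊕ Fin 3) :=
  ((circle j)⁻¹ * arc j * circle j, (circle j)⁻¹ * (arc (j + 1))⁻¹ * circle j)

/-- The numbers of crossings in the columns of `K`. -/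
def base : Fin 3 → ℤ := ![1, -1, 1]

/-- The downward meridians of the two strands at the bottom of column `j`. -/
def bottom (j : Fin 3) : FreeGroup (Fin 3 ⊕ Fin 3) × FreeGroup (Fin 3 ⊕ Fin 3) :=
  (crossing (FreeGroup (Fin 3 ⊕ Fin 3)) ^ base j) (below j)

/-- The bottom right end of column `j` is joined to the bottom left end of column `j + 1`. -/
def relator (j : Fin 3) : FreeGroup (Fin 3 ⊕ Fin 3) := (bottom j).2 * (bottom (j + 1)).1

/-- The loop around the two strands of column `j`, which is also the preferred longitude of the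
circle `C j`. -/
def loop (j : Fin 3) : FreeGroup (Fin 3 ⊕ Fin 3) := arc j * (arc (j + 1))⁻¹

/-- The circle `C j` closes up behind the two strands of column `j`. -/
def circleRelator (j : Fin 3) : FreeGroup (Fin 3 ⊕ Fin 3) :=
  circle j * loop j * (circle j)⁻¹ * (loop j)⁻¹

/-- The Wirtinger relators of the link `K ∪ C 0 ∪ C 1 ∪ C 2`. -/
def linkRelators : Set (FreeGroup (Fin 3 ⊕ Fin 3)) :=
  Set.range relator ∪ Set.range circleRelator

/-- The group of the link `K ∪ C 0 ∪ C 1 ∪ C 2`. -/
abbrev LinkGroup : Type := PresentedGroup linkRelators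

/-- The quotient of the group of the link `K ∪ C 0 ∪ C 1 ∪ C 2` by the `n`-th power of the
meridian `a 0` of `K`. -/
abbrev OrbifoldGroup (n : ℕ) : Type := PresentedGroup (linkRelators ∪ {arc 0 ^ n})

theorem crossing_pos {G : Type*} [Group G] (x y : G) :
    (crossing G ^ (1 : ℤ)) (x, y) = (y, y⁻¹ * x * y) := by
  rw [zpow_one]; rfl

theorem crossing_neg {G : Type*} [Group G] (x y : G) :
    (crossing G ^ (-1 : ℤ)) (x, y) = (x * y * x⁻¹, x) := by
  rw [zpow_neg, zpow_one]; rfl

theorem bottom_zero : bottom 0 = ((circle 0)⁻¹ * (arc 1)⁻¹ * circle 0,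
    ((circle 0)⁻¹ * (arc 1)⁻¹ * circle 0)⁻¹ * ((circle 0)⁻¹ * arc 0 * circle 0) *
      ((circle 0)⁻¹ * (arc 1)⁻¹ * circle 0)) :=
  crossing_pos _ _

theorem bottom_one : bottom 1 = (((circle 1)⁻¹ * arc 1 * circle 1) *
    ((circle 1)⁻¹ * (arc 2)⁻¹ * circle 1) * ((circle 1)⁻¹ * arc 1 * circle 1)⁻¹,
      (circle 1)⁻¹ * arc 1 * circle 1) :=
  crossing_neg _ _

theorem bottom_two : bottom 2 = ((circle 2)⁻¹ * (arc 0)⁻¹ * circle 2,
    ((circle 2)⁻¹ * (arc 0)⁻¹ * circle 2)⁻¹ * ((circle 2)⁻¹ * arc 2 * circle 2) *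
      ((circle 2)⁻¹ * (arc 0)⁻¹ * circle 2)) :=
  crossing_pos _ _

/-- All relators of the orbifold group have degree `0`. -/
theorem degree_rel (n : ℕ) : ∀ w ∈ linkRelators ∪ {arc 0 ^ n},
    FreeGroup.lift (Sum.elim (fun _ : Fin 3 => (Multiplicative.ofAdd 1 : Multiplicative (ZMod n)))
      (fun _ : Fin 3 => 1)) w = 1 := by
  rintro w ((⟨j, rfl⟩ | ⟨j, rfl⟩) | rfl)
  · fin_cases j
    · show FreeGroup.lift _ ((bottom 0).2 * (bottom 1).1) = 1
      rw [bottom_zero, bottom_one]
      simp [arc, circle]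
    · show FreeGroup.lift _ ((bottom 1).2 * (bottom 2).1) = 1
      rw [bottom_one, bottom_two]
      simp [arc, circle]
    · show FreeGroup.lift _ ((bottom 2).2 * (bottom 0).1) = 1
      rw [bottom_two, bottom_zero]
      simp [arc, circle]
  · simp [circleRelator, arc, circle, loop]
  · simp only [arc, map_pow, FreeGroup.lift_apply_of, Sum.elim_inl]
    rw [← ofAdd_nsmul]
    simp

/-- The homomorphism of the orbifold group to `Z/n` that sends all meridians `a j` of `K` to `1`
and all meridians `c j` of the circles to `0`. -/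
def degree (n : ℕ) : OrbifoldGroup n →* Multiplicative (ZMod n) :=
  PresentedGroup.toGroup (degree_rel n)

/-- The fundamental group of the exterior of the `3n` lifts of the circles `C j` in the `n`-fold
cyclic cover of `S³` branched along `K`. -/
abbrev ExteriorGroup (n : ℕ) : Type := (degree n).ker

/-- The slope `c ^ den * x ^ (- num)` of the circle `C j`, where `x` is its longitude. -/
def slope (n : ℕ) (j : Fin 3) (r : ℚ) : OrbifoldGroup n :=
  PresentedGroup.mk _ (circle j) ^ r.den * PresentedGroup.mk _ (loop j) ^ (-r.num)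

/-- The slope of the `i`-th lift of the circle `C j`. -/
def liftedSlope (n : ℕ) (j : Fin 3) (i : ZMod n) (r : ℚ) : OrbifoldGroup n :=
  PresentedGroup.mk _ (arc 0) ^ i.val * slope n j r * (PresentedGroup.mk _ (arc 0) ^ i.val)⁻¹

theorem degree_circle (n : ℕ) (j : Fin 3) : degree n (PresentedGroup.mk _ (circle j)) = 1 :=
  PresentedGroup.toGroup.of (degree_rel n)

theorem degree_arc (n : ℕ) (j : Fin 3) :
    degree n (PresentedGroup.mk _ (arc j)) = Multiplicative.ofAdd 1 :=
  PresentedGroup.toGroup.of (degree_rel n)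

theorem degree_loop (n : ℕ) (j : Fin 3) : degree n (PresentedGroup.mk _ (loop j)) = 1 := by
  unfold loop
  rw [map_mul, map_inv, map_mul, map_inv, degree_arc, degree_arc, mul_inv_cancel]

theorem liftedSlope_mem (n : ℕ) (j : Fin 3) (i : ZMod n) (r : ℚ) :
    liftedSlope n j i r ∈ (degree n).ker := by
  show degree n _ = 1
  unfold liftedSlope slope
  rw [map_mul, map_mul, map_mul, map_inv, map_pow _ (PresentedGroup.mk _ (circle j)), map_zpow,
    degree_circle, degree_loop]
  simp

/-- The fundamental group of the closed 3-manifold `M n r` obtained from the `n`-fold cyclic cover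
of `S³` branched along `K` by Dehn surgery on the `3n` lifts of the circles, with the slope
`r j i` on the `i`-th lift of `C j`. -/
abbrev SurgeryGroup (n : ℕ) (r : Fin 3 → ZMod n → ℚ) : Type :=
  ExteriorGroup n ⧸ Subgroup.normalClosure
    {y : ExteriorGroup n | ∃ j i, y.1 = liftedSlope n j i (r j i)}

/-- `G` has no nontrivial homomorphism to a left-orderable group; in particular it is not
left-orderable. -/
theorem not_lo {G : Type} [Group G]
    (h : ∀ (H : Type) [Group H], LeftOrderable H → ∀ f : G →* H, ∀ g, f g = 1) :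
    ¬ LeftOrderable G := by
  intro hG
  obtain ⟨a, b, hab⟩ := hG.1
  have key := h G hG (MonoidHom.id _)
  exact hab ((key a).trans (key b).symm)

theorem lo_order {H : Type*} [Group H] (hH : LeftOrderable H) :
    ∃ _ : LinearOrder H, ∀ a b c : H, a ≤ b ↔ c * a ≤ c * b := by
  classical
  obtain ⟨_, lt, hlt, hinv⟩ := hH
  refine ⟨linearOrderOfSTO lt, ?_⟩
  intro a b c
  show (a = b ∨ lt a b) ↔ (c * a = c * b ∨ lt (c * a) (c * b))
  rw [mul_right_inj, ← hinv]

theorem relA_aux {G : Type*} [Group G] (s X V c₀ c₁ : G) (k₁ : Commute V c₁)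
    (R : (c₀⁻¹ * (X⁻¹ * s)⁻¹ * c₀)⁻¹ * (c₀⁻¹ * s * c₀) * (c₀⁻¹ * (X⁻¹ * s)⁻¹ * c₀) *
      ((c₁⁻¹ * (X⁻¹ * s) * c₁) * (c₁⁻¹ * ((X * V)⁻¹ * s)⁻¹ * c₁) *
        (c₁⁻¹ * (X⁻¹ * s) * c₁)⁻¹) = 1) :
    s * (X * c₀ * (V * c₁⁻¹)) * s⁻¹ = X * c₀ * (V * c₁⁻¹) * (X * V)⁻¹ := by
  have h1 : V * c₁⁻¹ = c₁⁻¹ * V := k₁.inv_right.eq
  have h2 : (c₀⁻¹ * (X⁻¹ * s)⁻¹ * c₀)⁻¹ * (c₀⁻¹ * s * c₀) * (c₀⁻¹ * (X⁻¹ * s)⁻¹ * c₀) *
      ((c₁⁻¹ * (X⁻¹ * s) * c₁) * (c₁⁻¹ * ((X * V)⁻¹ * s)⁻¹ * c₁) *
        (c₁⁻¹ * (X⁻¹ * s) * c₁)⁻¹) =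
      c₀⁻¹ * X⁻¹ * s * X * c₀ * c₁⁻¹ * V * s⁻¹ * X * c₁ := by group
  rw [h2] at R
  calc s * (X * c₀ * (V * c₁⁻¹)) * s⁻¹
      = s * (X * c₀ * (c₁⁻¹ * V)) * s⁻¹ := by rw [h1]
    _ = X * c₀ * (c₀⁻¹ * X⁻¹ * s * X * c₀ * c₁⁻¹ * V * s⁻¹ * X * c₁) * c₁⁻¹ * X⁻¹ := by group
    _ = X * c₀ * (c₁⁻¹ * V) * (X * V)⁻¹ := by rw [R]; group
    _ = _ := by rw [h1]

theorem relB_aux {G : Type*} [Group G] (s X c₁ c₂ : G)
    (R : c₁⁻¹ * (X⁻¹ * s) * c₁ * (c₂⁻¹ * s⁻¹ * c₂) = 1) :
    s * (c₁ * c₂⁻¹) * s⁻¹ = X * c₁ * c₂⁻¹ := by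
  calc s * (c₁ * c₂⁻¹) * s⁻¹ = X * c₁ * (c₁⁻¹ * (X⁻¹ * s) * c₁ * (c₂⁻¹ * s⁻¹ * c₂)) * c₂⁻¹ := by
        group
    _ = _ := by rw [R]; group

theorem surgery_trivial {n : ℕ} (hn : 0 < n) (r : Fin 3 → ZMod n → ℚ)
    (h₀ : ∀ i, 0 ≤ r 0 i ∧ r 0 i ≤ 1) (h₁ : ∀ i, r 1 i ≤ -1) (h₂ : ∀ i, 0 ≤ r 2 i)
    {H : Type*} [Group H] (hH : LeftOrderable H) (f : SurgeryGroup n r →* H)
    (y : SurgeryGroup n r) : f y = 1 := by
  obtain ⟨_, hinv⟩ := lo_order hH
  set μ := PresentedGroup.mk (linkRelators ∪ {arc 0 ^ n}) with hμ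
  have rel : ∀ w ∈ linkRelators, μ w = 1 := fun w hw => PresentedGroup.one_of_mem (Or.inl hw)
  set s := μ (arc 0) with hs0
  set X := μ (loop 0) with hX
  set V := μ (loop 1) with hV
  set c₀ := μ (circle 0) with hc₀
  set c₁ := μ (circle 1) with hc₁
  set c₂ := μ (circle 2) with hc₂
  have hs : s ^ n = 1 := by
    have h1 : μ (arc 0 ^ n) = 1 := PresentedGroup.one_of_mem (Or.inr rfl)
    rwa [map_pow] at h1
  have eX : X = s * (μ (arc 1))⁻¹ := by
    rw [hX]; show μ (arc 0 * (arc 1)⁻¹) = _
    rw [map_mul, map_inv]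
  have eV : V = μ (arc 1) * (μ (arc 2))⁻¹ := by
    rw [hV]; show μ (arc 1 * (arc 2)⁻¹) = _
    rw [map_mul, map_inv]
  have e1 : μ (arc 1) = X⁻¹ * s := by rw [eX]; group
  have e2 : μ (arc 2) = (X * V)⁻¹ * s := by rw [eV, eX]; group
  have eW : μ (loop 2) = (X * V)⁻¹ := by
    show μ (arc 2 * (arc 0)⁻¹) = _
    rw [map_mul, map_inv, e2, ← hs0]; group
  have kk : ∀ j, Commute (μ (loop j)) (μ (circle j)) := by
    intro j
    have h1 := rel (circleRelator j) (Or.inr ⟨j, rfl⟩)
    unfold circleRelator at h1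
    rw [map_mul, map_mul, map_mul, map_inv, map_inv, mul_inv_eq_one, mul_inv_eq_iff_eq_mul] at h1
    exact h1.symm
  have k₀ : Commute X c₀ := kk 0
  have k₁ : Commute V c₁ := kk 1
  have k₂ : Commute (X * V)⁻¹ c₂ := by
    rw [← eW]; exact kk 2
  have A : s * (X * c₀ * (V * c₁⁻¹)) * s⁻¹ = X * c₀ * (V * c₁⁻¹) * (X * V)⁻¹ := by
    apply relA_aux s X V c₀ c₁ k₁
    have h1 : μ ((bottom 0).2 * (bottom 1).1) = 1 := rel (relator 0) (Or.inl ⟨0, rfl⟩)
    rw [bottom_zero, bottom_one] at h1
    simp only [map_mul, map_inv] at h1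
    rw [e1, e2] at h1
    exact h1
  have B : s * (c₁ * c₂⁻¹) * s⁻¹ = X * c₁ * c₂⁻¹ := by
    apply relB_aux s X c₁ c₂
    have h1 : μ ((bottom 1).2 * (bottom 2).1) = 1 := rel (relator 1) (Or.inl ⟨1, rfl⟩)
    rw [bottom_one, bottom_two] at h1
    simp only [map_mul, map_inv] at h1
    rw [e1] at h1
    exact h1
  have hgen : Subgroup.closure (insert s {X, V, c₀, c₁, c₂}) = ⊤ := by
    set T := Subgroup.closure (insert s {X, V, c₀, c₁, c₂}) with hT
    have sub : ∀ z ∈ (insert s {X, V, c₀, c₁, c₂} : Set (OrbifoldGroup n)), z ∈ T :=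
      fun z hz => Subgroup.subset_closure hz
    have ms : s ∈ T := sub _ (by simp)
    have mX : X ∈ T := sub _ (by simp)
    have mV : V ∈ T := sub _ (by simp)
    have key : ∀ j, μ (FreeGroup.of j) ∈ T := by
      rintro (j | j)
      · fin_cases j
        · exact ms
        · show μ (arc 1) ∈ T
          rw [e1]; exact mul_mem (inv_mem mX) ms
        · show μ (arc 2) ∈ T
          rw [e2]; exact mul_mem (inv_mem (mul_mem mX mV)) ms
      · fin_cases j
        · exact sub c₀ (by simp)
        · exact sub c₁ (by simp)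
        · exact sub c₂ (by simp)
    rw [eq_top_iff, ← PresentedGroup.closure_range_of, Subgroup.closure_le]
    rintro _ ⟨j, rfl⟩
    exact key j
  -- the homomorphism from the group of the exterior
  set φ : ExteriorGroup n →* H := f.comp (QuotientGroup.mk' _) with hφ
  have dX : degree n X = 1 := degree_loop n 0
  have dV : degree n V = 1 := degree_loop n 1
  have d₀ : degree n c₀ = 1 := degree_circle n 0
  have d₁ : degree n c₁ = 1 := degree_circle n 1
  have d₂ : degree n c₂ = 1 := degree_circle n 2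
  have slopes : ∀ (j : Fin 3) (i : ZMod n) (c x : OrbifoldGroup n) (dc : degree n c = 1)
      (dx : degree n x = 1), c = μ (circle j) → x = μ (loop j) →
      φ (kch (degree n) s i ⟨c, dc⟩) ^ (r j i).den =
        φ (kch (degree n) s i ⟨x, dx⟩) ^ (r j i).num := by
    intro j i c x dc dx ec ex
    have h1 : φ (kch (degree n) s i (⟨c, dc⟩ ^ (r j i).den * ⟨x, dx⟩ ^ (-(r j i).num))) = 1 := by
      rw [hφ, MonoidHom.comp_apply]
      have h2 : (QuotientGroup.mk' (Subgroup.normalClosure
          {y : ExteriorGroup n | ∃ j i, y.1 = liftedSlope n j i (r j i)}))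
          (kch (degree n) s i (⟨c, dc⟩ ^ (r j i).den * ⟨x, dx⟩ ^ (-(r j i).num))) = 1 := by
        rw [QuotientGroup.mk'_apply, QuotientGroup.eq_one_iff]
        apply Subgroup.subset_normalClosure
        refine ⟨j, i, ?_⟩
        show Pool.Agent.TH821.Cyc.cj s
          ((⟨c, dc⟩ ^ (r j i).den * ⟨x, dx⟩ ^ (-(r j i).num) : (degree n).ker)).1 i = _
        subst ec ex
        rfl
      rw [h2, map_one]
    rw [map_mul, map_mul, map_pow, map_pow, map_zpow, map_zpow, zpow_neg, mul_inv_eq_one] at h1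
    exact h1
  have key := Pool.Agent.U541.PB.hom_trivial hn hs hgen (degree n) (degree_arc n 0) dX dV d₀ d₁
    d₂ k₀ k₁ k₂ A B
    (fun j i => ![(r 0 i).num.toNat, (-(r 1 i).num - (r 1 i).den).toNat, (r 2 i).num.toNat] j)
    (fun j i => (r j i).den) (fun j i => (r j i).pos) ?_ hinv φ ?_ ?_ ?_
  · obtain ⟨z, rfl⟩ := QuotientGroup.mk'_surjective _ y
    exact key z
  · intro i
    show (r 0 i).num.toNat ≤ (r 0 i).den
    have h1 : (r 0 i).num ≤ ((r 0 i).den : ℤ) := by
      have h3 := (h₀ i).2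
      rw [Rat.le_iff] at h3
      simpa using h3
    omega
  · intro i
    have h1 : 0 ≤ (r 0 i).num := Rat.num_nonneg.mpr (h₀ i).1
    have h3 := slopes 0 i c₀ X d₀ dX rfl rfl
    show _ ^ (r 0 i).den = _ ^ (r 0 i).num.toNat
    rw [h3]
    conv_lhs => rw [← Int.toNat_of_nonneg h1]
    exact zpow_natCast _ _
  · intro i
    have h1 : (r 1 i).num ≤ -((r 1 i).den : ℤ) := by
      have h3 := h₁ i
      rw [Rat.le_iff] at h3
      simpa using h3
    have h3 := slopes 1 i c₁ V d₁ dV rfl rfl
    show (_ : H)⁻¹ ^ (r 1 i).den = _ ^ ((-(r 1 i).num - (r 1 i).den).toNat + (r 1 i).den)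
    rw [inv_pow, h3, ← zpow_neg]
    have h4 : -(r 1 i).num =
        (((-(r 1 i).num - (r 1 i).den).toNat + (r 1 i).den : ℕ) : ℤ) := by
      push_cast
      omega
    conv_lhs => rw [h4]
    exact zpow_natCast _ _
  · intro i
    have h1 : 0 ≤ (r 2 i).num := Rat.num_nonneg.mpr (h₂ i)
    have dW : degree n ((X * V)⁻¹) = 1 := by
      rw [map_inv, map_mul, dX, dV, mul_one, inv_one]
    have h3 := slopes 2 i c₂ (X * V)⁻¹ d₂ dW rfl eW.symm
    show _ ^ (r 2 i).den = _ ^ (r 2 i).num.toNat
    rw [h3]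
    have h4 : φ (kch (degree n) s i ⟨(X * V)⁻¹, dW⟩) =
        (φ (kch (degree n) s i ⟨X, dX⟩) * φ (kch (degree n) s i ⟨V, dV⟩))⁻¹ := by
      have e5 : (⟨(X * V)⁻¹, dW⟩ : (degree n).ker) = (⟨X, dX⟩ * ⟨V, dV⟩)⁻¹ := rfl
      rw [e5, map_inv, map_inv, map_mul, map_mul]
    rw [h4]
    conv_lhs => rw [← Int.toNat_of_nonneg h1]
    exact zpow_natCast _ _

/-- **Surgeries on the lifts of the band circles.**  The column `0` has at least one and at most
three crossings in every sheet, the column `1` at least three crossings of the other handedness,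
and the column `2` at least one crossing. -/
theorem result (n : ℕ) (hn : 0 < n) (r : Fin 3 → ZMod n → ℚ)
    (h₀ : ∀ i, 0 ≤ r 0 i ∧ r 0 i ≤ 1) (h₁ : ∀ i, r 1 i ≤ -1) (h₂ : ∀ i, 0 ≤ r 2 i) :
    ¬ LeftOrderable (SurgeryGroup n r) ∧
    ∀ (H : Type) [Group H], LeftOrderable H →
      ∀ f : SurgeryGroup n r →* H, ∀ g, f g = 1 := by
  have h : ∀ (H : Type) [Group H], LeftOrderable H →
      ∀ f : SurgeryGroup n r →* H, ∀ g, f g = 1 :=
    fun H _ hH f g => surgery_trivial hn r h₀ h₁ h₂ hH f g
  exact ⟨not_lo h, h⟩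

end Pool.Agent.Results.MP_9ae2f3_gt.PretzelBandSurgeries
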